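import Pool.Agent.helper5.LDH.Spec

/-! Row ldh:TAZ: the Taylor step with `T²` for `T`. -/

set_option autoImplicit false

open Complex MeasureTheory

namespace Pool.Agent.LDH

open Pool.Agent.helper84.DM Pool.Agent.helper78.ED Pool.Agent.DH

theorem TAZ (hTAY : Pool.Agent.DH.TAY_stmt) : TAZ_stmt := by
  intro κ hκ0 hκ1
  obtain ⟨T₁, hT₁⟩ := hTAY 1 one_pos
  have h5 := (isLittleO_log_rpow_atTop hκ0).bound (show (0 : ℝ) < 1 / 8 by norm_num)
  obtain ⟨T₂, hT₂⟩ := Filter.eventually_atTop.1 (h5.and (Filter.eventually_ge_atTop (1 : ℝ)))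
  refine ⟨max 3 (max T₁ T₂), ?_⟩
  intro T hT σ c N ρ hσ hN hNT hc hre1 hre2 hsum
  have hT3 : 3 ≤ T := (le_max_left _ _).trans hT
  have hTT1 : T₁ ≤ T := ((le_max_left _ _).trans (le_max_right _ _)).trans hT
  have hTT2 : T₂ ≤ T := ((le_max_right _ _).trans (le_max_right _ _)).trans hT
  have hT0 : 0 < T := by linarith
  have hlog1 : 1 ≤ Real.log T := by
    rw [Real.le_log_iff_exp_le hT0]
    have := Real.exp_one_lt_d9
    linarith
  have hlog : 8 * Real.log T ≤ T ^ κ := by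
    obtain ⟨h7, h8⟩ := hT₂ T hTT2
    rw [Real.norm_of_nonneg (Real.log_nonneg h8), Real.norm_of_nonneg (by positivity)] at h7
    linarith
  have hlog2 : Real.log (T ^ 2) = 2 * Real.log T := by
    rw [Real.log_pow]; push_cast; ring
  have hκp : 0 < T ^ κ := Real.rpow_pos_of_pos hT0 κ
  have hsq : T ≤ T ^ 2 := by nlinarith
  have e1 : (T ^ 2) ^ κ = T ^ κ * T ^ κ := by
    rw [← Real.rpow_natCast T 2, ← Real.rpow_mul hT0.le, ← Real.rpow_add hT0]
    refine congrArg (fun x => T ^ x) ?_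
    push_cast
    ring
  have h1 := hT₁ (T ^ 2) κ σ (hTT1.trans hsq) hκ0.le hκ1 hσ (fun n => ((T ^ κ : ℝ) : ℂ) * c n) N hN
    hNT (by
      intro n hn
      rw [norm_mul, Complex.norm_real, Real.norm_of_nonneg hκp.le, one_mul, e1]
      exact mul_le_mul_of_nonneg_left (hc n hn) hκp.le) ρ hre1 hre2 (by
      have e2 : ∑ n ∈ Finset.Ioc N (2 * N), ((T ^ κ : ℝ) : ℂ) * c n * (n : ℂ) ^ (-ρ) =
          ((T ^ κ : ℝ) : ℂ) * ∑ n ∈ Finset.Ioc N (2 * N), c n * (n : ℂ) ^ (-ρ) := by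
        rw [Finset.mul_sum]
        exact Finset.sum_congr rfl fun n _ => by ring
      rw [e2, norm_mul, Complex.norm_real, Real.norm_of_nonneg hκp.le, one_mul, hlog2]
      have e3 : 1 / (2 * Real.log T) ≤ 1 := by
        rw [div_le_one (by linarith)]
        linarith
      have e4 : T ^ κ * T ^ (-κ) = 1 := by
        rw [← Real.rpow_add hT0, add_neg_cancel, Real.rpow_zero]
      calc 1 / (2 * Real.log T) ≤ 1 := e3
        _ = T ^ κ * T ^ (-κ) := e4.symm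
        _ ≤ _ := mul_le_mul_of_nonneg_left hsum hκp.le)
  obtain ⟨j, hj, h2⟩ := h1
  refine ⟨j, ?_, ?_⟩
  · have e5 : 8 * Real.log (T ^ 2) = 16 * Real.log T := by rw [hlog2]; ring
    rw [e5] at hj
    exact hj
  · have e6 : DP N (fun n => ((T ^ κ : ℝ) : ℂ) * c n *
        ((((N : ℝ) / n) ^ σ * Real.log ((n : ℝ) / N) ^ j : ℝ) : ℂ)) ρ.im =
        ((T ^ κ : ℝ) : ℂ) * DP N (fun n => c n * ((ww N σ j n : ℝ) : ℂ)) ρ.im := by
      unfold DP ww
      rw [Finset.mul_sum]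
      exact Finset.sum_congr rfl fun n _ => by ring
    rw [e6, norm_mul, Complex.norm_real, Real.norm_of_nonneg hκp.le, hlog2] at h2
    have hNσ : 0 ≤ (N : ℝ) ^ σ := Real.rpow_nonneg (Nat.cast_nonneg N) σ
    have e7 : T ^ (-(2 * κ)) * (T ^ κ * T ^ κ) = 1 := by
      rw [← Real.rpow_add hT0, ← Real.rpow_add hT0]
      have : -(2 * κ) + (κ + κ) = 0 := by ring
      rw [this, Real.rpow_zero]
    have e8 : 0 ≤ T ^ (-(2 * κ)) := Real.rpow_nonneg hT0.le _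
    rw [div_le_iff₀ (by linarith)] at h2
    have h3 : (N : ℝ) ^ σ ≤ (T ^ κ * T ^ κ) * ‖DP N (fun n => c n * ((ww N σ j n : ℝ) : ℂ)) ρ.im‖ := by
      have h4 : 4 * 1 * (2 * Real.log T) ≤ T ^ κ := by linarith
      have h6 : 0 ≤ T ^ κ * ‖DP N (fun n => c n * ((ww N σ j n : ℝ) : ℂ)) ρ.im‖ :=
        mul_nonneg hκp.le (norm_nonneg _)
      have h7 := mul_le_mul_of_nonneg_left h4 h6
      linarith
    have h8 := mul_le_mul_of_nonneg_left h3 e8
    calc (N : ℝ) ^ σ * T ^ (-(2 * κ)) = T ^ (-(2 * κ)) * (N : ℝ) ^ σ := by ring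
      _ ≤ T ^ (-(2 * κ)) * ((T ^ κ * T ^ κ) * ‖DP N (fun n => c n * ((ww N σ j n : ℝ) : ℂ)) ρ.im‖) := h8
      _ = (T ^ (-(2 * κ)) * (T ^ κ * T ^ κ)) * ‖DP N (fun n => c n * ((ww N σ j n : ℝ) : ℂ)) ρ.im‖ := by
          ring
      _ = _ := by rw [e7, one_mul]

end Pool.Agent.LDH
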